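import Pool.Agent.Q285.ESG.Base
import Pool.Agent.Q14.ESM.SUF

/-!
# Project ESG (helper161), job NRM: normalisation of the elements `δ`
-/

set_option autoImplicit false

namespace Pool.Agent.Q261.ESG

open Polynomial NumberField IsDedekindDomain Finset
open Pool.Agent.Q51.EL (Abv Par)
open Pool.Agent.Q239.EL (par_mul_sq exists_ratio cl coe_ne span_ne)
open Pool.Agent.Q161.ESM
open Pool.Agent.Q237.ESM (bl val_bl abv_bl mem_bl val_l)
open Pool.Agent.Q285.ESG (cp_apply)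
open Pool.Agent.Q14.ESM (par_or)

section

variable {L : Type} [Field L] [NumberField L]

theorem fin_int {x : 𝓞 L} (hx : x ≠ 0) : {v : HeightOneSpectrum (𝓞 L) | x ∈ v.asIdeal}.Finite := by
  have h1 := Ideal.finite_factors (R := 𝓞 L) (I := Ideal.span {x}) (span_ne hx)
  refine h1.subset ?_
  intro v hv
  rw [Set.mem_ofPred_eq, Ideal.dvd_iff_le, Ideal.span_singleton_le_iff_mem]
  exact hv

theorem val_one' {v : HeightOneSpectrum (𝓞 L)} {x : 𝓞 L} (hx : x ∉ v.asIdeal) :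
    v.valuation L (x : L) = 1 := by
  rcases (v.valuation_le_one (K := L) x).lt_or_eq with h | h
  · exact absurd ((v.valuation_lt_one_iff_mem x).1 h) hx
  · exact h

theorem par_finite {δ : L} (hδ : δ ≠ 0) :
    {v : HeightOneSpectrum (𝓞 L) | Par v δ 1}.Finite := by
  obtain ⟨x, y, hy, hxy⟩ := exists_ratio δ
  have hy' := coe_ne hy
  have hx : x ≠ 0 := by
    rintro rfl
    have h0 : δ * (y : L) = 0 := by rw [hxy]; simp
    exact (mul_ne_zero hδ hy') h0
  refine ((fin_int hx).union (fin_int hy)).subset fun v hv => ?_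
  by_contra h
  rw [Set.mem_union, not_or] at h
  obtain ⟨k, hk⟩ := hv
  have h2 := congrArg (v.valuation L) hxy
  rw [map_mul, val_one' h.1, val_one' h.2, mul_one, hk, ← WithZero.exp_zero,
    WithZero.exp_inj] at h2
  omega

theorem nat_notMem {v : HeightOneSpectrum (𝓞 L)} {l B : ℕ} (hl : l.Prime) (hv : Abv v l)
    (h : ¬ l ∣ B) : (B : 𝓞 L) ∉ v.asIdeal := by
  intro hB
  have h1 : IsCoprime (l : ℤ) (B : ℤ) :=
    Nat.isCoprime_iff_coprime.2 ((Nat.Prime.coprime_iff_not_dvd hl).2 h)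
  obtain ⟨a, b, hab⟩ := h1
  have h3 : (1 : 𝓞 L) ∈ v.asIdeal := by
    have h2 : ((a * l + b * B : ℤ) : 𝓞 L) = 1 := by rw [hab]; simp
    rw [← h2]
    push_cast
    exact v.asIdeal.add_mem (v.asIdeal.mul_mem_left _ hv) (v.asIdeal.mul_mem_left _ hB)
  exact v.isPrime.ne_top ((Ideal.eq_top_iff_one _).2 h3)

end

section

variable {K : Type} [Field K] [NumberField K] {w : HeightOneSpectrum (𝓞 K)} {F : K ≃ₐ[ℚ] K} {l : ℕ}

/-- an element fixed by the Frobenius element is a root of unity of order `l - 1` modulo `w` -/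
theorem pow_sub_one (hl : l.Prime) (hF : Fb w l F) {u : K} (h1 : F u = u)
    (h2 : w.valuation K u = 1) : w.valuation K (u ^ (l - 1) - 1) < 1 := by
  obtain ⟨a, ⟨b, hb⟩, hab⟩ := w.exists_primeCompl_mul_eq_of_integer (K := K) u h2.le
  change u * (b : K) = (a : K) at hab
  have hb' : b ∉ w.asIdeal := hb
  have hprime : w.asIdeal.IsPrime := w.isPrime
  have hvb := val_one' hb'
  have ha' : a ∉ w.asIdeal := by
    intro ha
    have h4 := (w.valuation_lt_one_iff_mem (K := K) a).2 ha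
    change w.valuation K (a : K) < 1 at h4
    rw [← hab, map_mul, h2, hvb, one_mul] at h4
    exact lt_irrefl _ h4
  let φ : 𝓞 K →+* 𝓞 K := RingOfIntegers.mapRingHom (F : K →+* K)
  have hφ : ∀ u : 𝓞 K, (φ u : K) = F (u : K) := fun u => rfl
  have h5 : φ a * b = a * φ b := by
    apply RingOfIntegers.coe_injective
    rw [map_mul, map_mul]
    change (φ a : K) * (b : K) = (a : K) * (φ b : K)
    rw [hφ, hφ, ← hab, map_mul, h1]
    ring
  let q : 𝓞 K →+* (𝓞 K ⧸ w.asIdeal) := Ideal.Quotient.mk w.asIdeal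
  have hq : ∀ u : 𝓞 K, q u = 0 ↔ u ∈ w.asIdeal := fun u => Ideal.Quotient.eq_zero_iff_mem
  have hfr : ∀ u : 𝓞 K, q (φ u) = q u ^ l := by
    intro u
    have h6 := hF u (φ u) (hφ u)
    rwa [← hq, map_sub, map_pow, sub_eq_zero] at h6
  have hqa : q a ≠ 0 := fun h6 => ha' ((hq a).1 h6)
  have hqb : q b ≠ 0 := fun h6 => hb' ((hq b).1 h6)
  have hl1 : l = (l - 1) + 1 := (Nat.succ_pred_eq_of_pos hl.pos).symm
  have h6 : q a ^ (l - 1) = q b ^ (l - 1) := by
    have h7 := congrArg q h5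
    rw [map_mul, map_mul, hfr, hfr] at h7
    have h8 : q a ^ l = q a ^ (l - 1) * q a := by
      conv_lhs => rw [hl1]
      exact pow_succ _ _
    have h9 : q b ^ l = q b ^ (l - 1) * q b := by
      conv_lhs => rw [hl1]
      exact pow_succ _ _
    rw [h8, h9] at h7
    apply mul_right_cancel₀ (mul_ne_zero hqa hqb)
    calc q a ^ (l - 1) * (q a * q b) = q a ^ (l - 1) * q a * q b := by ring
      _ = q a * (q b ^ (l - 1) * q b) := h7
      _ = q b ^ (l - 1) * (q a * q b) := by ring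
  have h7 : a ^ (l - 1) - b ^ (l - 1) ∈ w.asIdeal := by
    rw [← hq, map_sub, map_pow, map_pow, h6, sub_self]
  have h10 : ((a ^ (l - 1) - b ^ (l - 1) : 𝓞 K) : K) =
      (a : K) ^ (l - 1) - (b : K) ^ (l - 1) := by
    change algebraMap (𝓞 K) K (a ^ (l - 1) - b ^ (l - 1)) = _
    rw [map_sub, map_pow, map_pow]
  have h8 : w.valuation K ((a : K) ^ (l - 1) - (b : K) ^ (l - 1)) < 1 := by
    rw [← h10]
    exact (w.valuation_lt_one_iff_mem (K := K) _).2 h7
  have h9 : (a : K) ^ (l - 1) - (b : K) ^ (l - 1) = (u ^ (l - 1) - 1) * (b : K) ^ (l - 1) := by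
    rw [← hab]
    ring
  rw [h9, map_mul, map_pow, hvb, one_pow, mul_one] at h8
  exact h8

theorem qr_mul (hl : l.Prime) (hl2 : l ≠ 2) (hsq : Squarefree (Ideal.span {(l : 𝓞 K)}))
    (hw : Abv w l) (hF : Fb w l F) {Y y : K} (hy0 : y ≠ 0) (hy : F y = y) (h : QR w l Y) :
    QR w l (Y * y ^ 2) := by
  obtain ⟨k, hk⟩ := h
  have h1 : w.valuation K y ≠ 0 := (Valuation.ne_zero_iff _).mpr hy0
  obtain ⟨m, hm⟩ : ∃ m : ℤ, w.valuation K y = WithZero.exp m :=
    ⟨WithZero.log (w.valuation K y), (WithZero.exp_log h1).symm⟩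
  have hl0 : (l : K) ≠ 0 := by exact_mod_cast hl.ne_zero
  have hFu : F (y * (l : K) ^ m) = y * (l : K) ^ m := by
    rw [map_mul, hy, map_zpow₀, map_natCast]
  have hvu : w.valuation K (y * (l : K) ^ m) = 1 := by
    rw [map_mul, map_zpow₀, hm, val_l hl hsq hw, ← WithZero.exp_zsmul, ← WithZero.exp_add,
      ← WithZero.exp_zero]
    congr 1
    simp
  have h2 := pow_sub_one hl hF hFu hvu
  have hodd : 2 * ((l - 1) / 2) = l - 1 := by
    rcases hl.eq_two_or_odd' with h8 | ⟨n, hn⟩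
    · exact absurd h8 hl2
    · omega
  refine ⟨k + m, ?_⟩
  have h3 : (Y * y ^ 2 * (l : K) ^ (2 * (k + m))) ^ ((l - 1) / 2) - 1 =
      ((Y * (l : K) ^ (2 * k)) ^ ((l - 1) / 2) - 1) * (y * (l : K) ^ m) ^ (l - 1) +
        ((y * (l : K) ^ m) ^ (l - 1) - 1) := by
    have h4 : (y * (l : K) ^ m) ^ (l - 1) = ((y * (l : K) ^ m) ^ 2) ^ ((l - 1) / 2) := by
      rw [← pow_mul, hodd]
    have h5 : Y * y ^ 2 * (l : K) ^ (2 * (k + m)) =
        (Y * (l : K) ^ (2 * k)) * (y * (l : K) ^ m) ^ 2 := by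
      rw [mul_add, zpow_add₀ hl0, mul_pow, ← zpow_natCast ((l : K) ^ m), ← zpow_mul]
      have h6 : m * ((2 : ℕ) : ℤ) = 2 * m := by push_cast; ring
      rw [h6]
      ring
    rw [h5, h4, mul_pow]
    ring
  rw [h3]
  refine Valuation.map_add_lt _ ?_ h2
  rw [map_mul, map_pow, hvu, one_pow, mul_one]
  exact hk

end

/-- **NRM** -/
theorem nrm : S_NRM := by
  classical
  intro L Bs _ _ _ K _ _ _ inc th
  obtain ⟨B0, C, hB0, hC, hcl⟩ := cl L
  obtain ⟨B2, hB2, hfr⟩ := Pool.Agent.Q224.ESM.frx K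
  refine ⟨2 * B0 * B2, mul_ne_zero (mul_ne_zero two_ne_zero hB0) hB2, fun B hB D δ hδ hG => ?_⟩
  obtain ⟨η, α, hη, hα, hval, -⟩ := hcl δ (par_finite hδ).toFinset hδ (by
    intro v _
    refine ⟨fun hv => ?_, fun hv => ?_⟩
    · rw [Set.Finite.mem_toFinset] at hv
      exact hv
    · by_contra h
      apply hv
      rw [Set.Finite.mem_toFinset]
      exact par_or v hδ h)
  have hα0 : α ≠ 0 := by
    rintro rfl
    have h1 : (0 : L) = δ * η ^ 2 := by rw [← hα]; simp
    exact mul_ne_zero hδ (pow_ne_zero 2 hη) h1.symm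
  have hdv : ∀ l : ℕ, ¬ l ∣ B → l ≠ 2 ∧ ¬ l ∣ B0 ∧ ¬ l ∣ B2 := by
    intro l hlB
    refine ⟨?_, fun h => hlB (h.trans ?_), fun h => hlB (h.trans ?_)⟩
    · rintro rfl
      exact hlB (((Dvd.intro _ rfl).trans (Dvd.intro _ rfl)).trans hB)
    · exact ((Dvd.intro_left _ rfl).trans (Dvd.intro _ rfl)).trans hB
    · exact (Dvd.intro_left _ rfl).trans hB
  have hιη : ∀ ι : L →+* K, ι η ≠ 0 := fun ι => by rw [Ne, map_eq_zero]; exact hη
  refine ⟨α, η, hα0, hη, hα, ?_, ?_⟩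
  · rw [hα]
    refine ⟨fun l hl hlB hlD w hw ι => ?_, fun l hl hlB hlD w hw F hF => ?_⟩
    · rw [map_mul, map_pow]
      exact par_mul_sq (hιη ι) (hG.even l hl hlB hlD w hw ι)
    · obtain ⟨hl2, -, hlB2⟩ := hdv l hlB
      obtain ⟨hsq, -, -⟩ := hfr l hl hlB2
      obtain ⟨e, h1, h2, h3, h4⟩ := hG.odd l hl hlB hlD w hw F hF
      refine ⟨e, h1, h2, fun ι => ⟨fun h => ?_, fun h => ?_⟩, fun A hA => ?_⟩
      · rw [map_mul, map_pow]
        exact par_mul_sq (hιη ι) ((h3 ι).1 h)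
      · rw [map_mul, map_pow]
        exact par_mul_sq (hιη ι) ((h3 ι).2 h)
      · have hy0 : ∏ ι ∈ A, ι η ≠ 0 := prod_ne_zero_iff.2 fun ι _ => hιη ι
        have hy : F (∏ ι ∈ A, ι η) = ∏ ι ∈ A, ι η := by
          rw [map_prod]
          refine prod_bij (fun ι _ => cp F ι) (fun ι hι => (hA ι).1 hι) (fun ι _ ι' _ h => ?_)
            (fun ι hι => ?_) (fun ι _ => rfl)
          · apply RingHom.ext
            intro x
            have h5 := congrArg (fun j : L →+* K => j x) h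
            exact F.injective h5
          · refine ⟨cp F.symm ι, ?_, ?_⟩
            · rw [hA]
              have h5 : cp F (cp F.symm ι) = ι := RingHom.ext fun x => F.apply_symm_apply _
              rw [h5]
              exact hι
            · exact RingHom.ext fun x => F.apply_symm_apply _
        have h5 := qr_mul hl hl2 hsq hw hF hy0 hy (h4 A hA)
        rw [← prod_pow, ← prod_mul_distrib] at h5
        have h6 : ∏ ι ∈ A, ι (δ * η ^ 2) * (if e ι = 1 then (D : K) else 1) * uu inc th e ι =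
            ∏ ι ∈ A, ι δ * (if e ι = 1 then (D : K) else 1) * uu inc th e ι * ι η ^ 2 := by
          refine prod_congr rfl fun ι _ => ?_
          rw [map_mul, map_pow]
          ring
        rw [h6]
        exact h5
  · intro l hl hlB w hw ι
    obtain ⟨hl2, hlB0, hlB2⟩ := hdv l hlB
    obtain ⟨hsq, -, -⟩ := hfr l hl hlB2
    rw [val_bl ι w hl hw hsq]
    have h1 := hval (bl ι w hl hw) (nat_notMem hl (abv_bl ι w hl hw) hlB0)
    by_cases h : bl ι w hl hw ∈ (par_finite hδ).toFinset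
    · exact Or.inr (h1.1 h)
    · exact Or.inl (h1.2 h)

end Pool.Agent.Q261.ESG
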